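import Pool.Agent.H13.LK.Stmts
import Pool.Agent.H34.KA.EXI
import Pool.Agent.H43.K2.MOP

/-!
# Labels: existence of the class (row AEXL of the board lk2)
-/

set_option autoImplicit false

namespace Pool.LK

open Finset Real
open Pool.Agent.H49.Ent Pool.Agent.H32.Dense Pool.STK Pool.KA Pool.KSAT Pool.K2S

variable {m J : ℕ}

/-- The entropy of the time. -/
lemma aexl_T (F : Fam m J) : CH F.p F.T F.Z ≤ J * Real.log 2 := by
  have h := CH_le_card F.isLaw.nonneg F.isLaw.sum_one F.T F.Z (fun _ => Finset.range (2 ^ J))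
    (fun ω _ => Finset.mem_range.2 (F.tim ω))
  rw [Ex_const F.isLaw.sum_one, Finset.card_range] at h
  refine h.trans (le_of_eq ?_)
  push_cast
  rw [Real.log_pow]

/-- Side information which is a function of the line. -/
lemma aexl_Tm (F : Fam m J) {e : ℝ} (he : F.Tm e) {κ : Type} (z : F.Ω → κ)
    (hz : Det F.p F.l z) : (F.cnd z).Tm e := by
  have hp := F.isLaw.nonneg
  unfold Fam.Tm at he ⊢
  refine he.trans (le_of_eq ?_)
  change CH F.p F.T (fun ω => (F.l ω, F.Z ω)) = CH F.p F.T (fun ω => (F.l ω, (z ω, F.Z ω)))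
  refine CH_congr hp ?_ ?_ ?_ ?_
  · intro ω ω' _ _ h
    exact (Prod.ext_iff.1 h).1
  · intro ω ω' _ _ h
    exact (Prod.ext_iff.1 h).1
  · intro ω ω' a b h
    simp only [Prod.mk.injEq] at h ⊢
    exact ⟨h.1, hz ω ω' a b h.1, h.2⟩
  · intro ω ω' _ _ h
    simp only [Prod.mk.injEq] at h ⊢
    exact ⟨h.1, h.2.2⟩

lemma aexl_x (F : Fam m J) (ω : F.Ω) (i : Fin m) :
    F.x ω i = F.u ω i + F.t ω * F.d ω i ∧ |F.t ω * F.d ω i| ≤ 1 := by
  refine ⟨rfl, ?_⟩
  have h1 : 0 ≤ F.t ω := by unfold Fam.t; positivity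
  have h2 : F.t ω ≤ 1 := by
    unfold Fam.t
    rw [div_le_one (by positivity)]
    exact_mod_cast (F.tim ω).le
  rw [abs_mul, abs_of_nonneg h1]
  calc F.t ω * |F.d ω i| ≤ 1 * 1 := mul_le_mul h2 (F.dir ω i) (abs_nonneg _) (by norm_num)
    _ = 1 := one_mul 1

/-- The entropy of the position given the unit cube of the line. -/
lemma aexl_X (F : Fam m J) {S : Type} (W : F.Ω → S) (hW : Det F.p W fun ω i => ⌊F.u ω i⌋) :
    CH F.p (F.X J) W ≤ m * (((J : ℝ) + 4) * Real.log 2) := by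
  have h1 := CH_le_vec F.isLaw.nonneg F.isLaw.sum_one (F.X J) W (fun _ => 3 * 2 ^ J + 1) (by
    intro ω ω' hω hω' h k
    have e := congrFun (hW ω ω' hω hω' h) k
    simp only at e
    obtain ⟨a1, a2⟩ := aexl_x F ω k
    obtain ⟨a3, a4⟩ := aexl_x F ω' k
    have b1 := Int.floor_le (F.u ω k)
    have b2 := Int.lt_floor_add_one (F.u ω k)
    have b3 := Int.floor_le (F.u ω' k)
    have b4 := Int.lt_floor_add_one (F.u ω' k)
    rw [e] at b1 b2
    have hX : ∀ w, F.X J w k = ⌊(2 : ℝ) ^ J * F.x w k⌋ := fun w => rfl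
    have c1 := Int.floor_le ((2 : ℝ) ^ J * F.x ω k)
    have c2 := Int.lt_floor_add_one ((2 : ℝ) ^ J * F.x ω k)
    have c3 := Int.floor_le ((2 : ℝ) ^ J * F.x ω' k)
    have c4 := Int.lt_floor_add_one ((2 : ℝ) ^ J * F.x ω' k)
    rw [hX, hX]
    push_cast
    have hp : (0 : ℝ) < 2 ^ J := by positivity
    have d1 : |F.x ω k - F.x ω' k| ≤ 3 := by
      rw [abs_le] at a2 a4 ⊢
      constructor <;> linarith [a2.1, a2.2, a4.1, a4.2]
    have d2 : |(2 : ℝ) ^ J * F.x ω k - 2 ^ J * F.x ω' k| ≤ 2 ^ J * 3 := by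
      rw [← mul_sub, abs_mul, abs_of_pos hp]
      exact mul_le_mul_of_nonneg_left d1 hp.le
    rw [abs_le] at d2 ⊢
    constructor <;> linarith [d2.1, d2.2])
  rw [Ex_const F.isLaw.sum_one] at h1
  have h2 : Real.log (2 * (3 * 2 ^ J + 1) + 1) ≤ ((J : ℝ) + 4) * Real.log 2 := by
    have h3 : (2 : ℝ) * (3 * 2 ^ J + 1) + 1 ≤ 2 ^ (J + 4) := by
      have : (1 : ℝ) ≤ 2 ^ J := one_le_pow₀ (by norm_num)
      rw [pow_add]
      linarith
    have h4 := Real.log_le_log (by positivity) h3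
    rw [Real.log_pow] at h4
    push_cast at h4
    exact h4
  exact h1.trans (mul_le_mul_of_nonneg_left h2 (Nat.cast_nonneg m))

/-- The unit cube of the line given the position. -/
lemma aexl_z (F : Fam m J) :
    CH F.p (fun ω i => ⌊F.u ω i⌋) (fun ω => (F.X J ω, F.W ω)) ≤ m * Real.log 9 := by
  have h1 := CH_le_vec F.isLaw.nonneg F.isLaw.sum_one (fun ω i => ⌊F.u ω i⌋)
    (fun ω => (F.X J ω, F.W ω)) (fun _ => 4) (by
    intro ω ω' _ _ h k
    have e := congrFun (Prod.ext_iff.1 h).1 k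
    obtain ⟨a1, a2⟩ := aexl_x F ω k
    obtain ⟨a3, a4⟩ := aexl_x F ω' k
    have b1 := Int.floor_le (F.u ω k)
    have b2 := Int.lt_floor_add_one (F.u ω k)
    have b3 := Int.floor_le (F.u ω' k)
    have b4 := Int.lt_floor_add_one (F.u ω' k)
    have hX : ∀ w, F.X J w k = ⌊(2 : ℝ) ^ J * F.x w k⌋ := fun w => rfl
    have c1 := Int.floor_le ((2 : ℝ) ^ J * F.x ω k)
    have c2 := Int.lt_floor_add_one ((2 : ℝ) ^ J * F.x ω k)
    have c3 := Int.floor_le ((2 : ℝ) ^ J * F.x ω' k)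
    have c4 := Int.lt_floor_add_one ((2 : ℝ) ^ J * F.x ω' k)
    simp only at e
    rw [hX, hX] at e
    rw [e] at c1 c2
    push_cast
    have hp : (1 : ℝ) ≤ 2 ^ J := one_le_pow₀ (by norm_num)
    have d1 : |F.x ω k - F.x ω' k| ≤ 1 := by
      rw [abs_le]
      constructor <;> nlinarith
    rw [abs_le] at a2 a4 d1 ⊢
    constructor <;> linarith [a2.1, a2.2, a4.1, a4.2, d1.1, d1.2])
  rw [Ex_const F.isLaw.sum_one] at h1
  norm_num at h1
  exact h1

theorem aexl_thm (hCND : CNDLStmt) (hTRV : TRVLStmt) : AEXLStmt := by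
  intro m b hb hKP
  obtain ⟨C, hC, hG⟩ := hTRV m b hb
  have hlog : 0 < Real.log 2 := Real.log_pos (by norm_num)
  unfold LKS at hKP
  push Not at hKP
  obtain ⟨ε, hε, hKP⟩ := hKP
  obtain ⟨L, hL⟩ : ∃ L : ℝ, L = m * Real.log 2 := ⟨_, rfl⟩
  have hL0 : 0 ≤ L := by rw [hL]; positivity
  refine ⟨1 + ε / (2 * (5 * L + 1)), by
    have : 0 < ε / (2 * (5 * L + 1)) := by positivity
    linarith, fun a ha1 ha2 => ?_⟩
  have hup : ∀ x y, x ≤ y → UBl m b a x → UBl m b a y := by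
    intro x y hxy h η hη
    obtain ⟨θ, hθ, J₀, h1⟩ := h η hη
    refine ⟨θ, hθ, J₀, fun J hJ F hF => (h1 J hJ F hF).mono ?_⟩
    have : (0 : ℝ) ≤ J := Nat.cast_nonneg J
    nlinarith
  have hcl : ∀ x, (∀ y > x, UBl m b a y) → UBl m b a x := by
    intro x h η hη
    obtain ⟨θ, hθ, J₀, h1⟩ := h (x + η / 2) (by linarith) (η / 2) (by linarith)
    exact ⟨θ, hθ, J₀, fun J hJ F hF => (h1 J hJ F hF).mono (le_of_eq (by ring))⟩
  have hone : UBl m b a (m * Real.log 2) := by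
    intro η hη
    obtain ⟨J₀, hJ₀⟩ := exists_nat_ge (C / (η / 2))
    refine ⟨η / 2, by linarith, J₀, fun J hJ F hF => (hG J F a ha1.le).mono ?_⟩
    have h2 : C ≤ η / 2 * J := by
      have h3 : (J₀ : ℝ) ≤ J := by exact_mod_cast hJ
      have h4 : C / (η / 2) ≤ J := hJ₀.trans h3
      rw [div_le_iff₀ (by linarith)] at h4
      linarith
    have h5 := aexl_T F
    unfold Fam.Tm at hF
    linarith
  have hzero : ¬ UBl m b a 0 := by
    intro h
    obtain ⟨θ, hθ, J₀, h1⟩ := h (ε / 8) (by linarith)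
    obtain ⟨J₁, hJ₁⟩ := exists_nat_ge (m * Real.log 9 / (ε / 8))
    obtain ⟨J, hJ, F, hF, hV⟩ := hKP (min θ (ε / 8)) (lt_min hθ (by linarith)) (J₀ + J₁ + 1)
    have hp := F.isLaw.nonneg
    have hJ1 : (1 : ℝ) ≤ J := by exact_mod_cast (by omega : 1 ≤ J)
    have hJ0 : (0 : ℝ) ≤ J := by linarith
    have hm9 : m * Real.log 9 ≤ ε / 8 * J := by
      have h3 : (J₁ : ℝ) ≤ J := by exact_mod_cast (by omega : J₁ ≤ J)
      have h4 : m * Real.log 9 / (ε / 8) ≤ J := hJ₁.trans h3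
      rw [div_le_iff₀ (by linarith)] at h4
      linarith
    obtain ⟨z, hz⟩ : ∃ z : F.Ω → Fin m → ℤ, z = fun ω i => ⌊F.u ω i⌋ := ⟨_, rfl⟩
    have hlz : Det F.p F.l z := by
      intro ω ω' _ _ h
      rw [hz]
      have h2 : F.u ω = F.u ω' := (Prod.ext_iff.1 h).1
      simp only
      rw [h2]
    have hT1 : F.Tm (θ * J) := by
      have := mul_le_mul_of_nonneg_right (min_le_left θ (ε / 8)) hJ0
      unfold Fam.Tm at hF ⊢
      linarith
    have hT2 : F.Tm (ε / 8 * J) := by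
      have := mul_le_mul_of_nonneg_right (min_le_right θ (ε / 8)) hJ0
      unfold Fam.Tm at hF ⊢
      linarith
    obtain ⟨B', hB'⟩ := h1 J (by omega) (F.cnd z) (aexl_Tm F hT1 z hlz)
    obtain ⟨B, hB⟩ := hCND m b J F _ z B'
    have h2 := hV B
    -- entropies
    have e1 : CH F.p (F.X J) (fun ω => (z ω, F.W ω)) =
        CH (F.cnd z).p ((F.cnd z).X J) (F.cnd z).W := by
      change CH F.p (F.X J) (fun ω => (z ω, (F.T ω, F.Z ω))) =
        CH F.p (F.X J) (fun ω => (F.T ω, (z ω, F.Z ω)))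
      refine CH_congr hp ?_ ?_ ?_ ?_
      · intro ω ω' _ _ h
        exact (Prod.ext_iff.1 h).1
      · intro ω ω' _ _ h
        exact (Prod.ext_iff.1 h).1
      · intro ω ω' _ _ h
        simp only [Prod.mk.injEq] at h ⊢
        tauto
      · intro ω ω' _ _ h
        simp only [Prod.mk.injEq] at h ⊢
        tauto
    rw [← e1] at hB'
    have c1 := CH_bayes hp (F.X J) z F.W
    have c2 : CH F.p z (fun ω => (F.X J ω, F.W ω)) ≤ m * Real.log 9 := by
      rw [hz]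
      exact aexl_z F
    have c3 := CH_bayes hp F.T z F.Z
    have c4 : CH F.p F.T (fun ω => (F.l ω, F.Z ω)) ≤ CH F.p F.T (fun ω => (z ω, F.Z ω)) := by
      refine CH_mono_cond hp ?_
      intro ω ω' a b h
      simp only [Prod.mk.injEq] at h ⊢
      exact ⟨hlz ω ω' a b h.1, h.2⟩
    have c5 : CH F.p z F.W = CH F.p z (fun ω => (F.T ω, F.Z ω)) := rfl
    have c6 := aexl_T F
    have c7 := aexl_X F (fun ω => (z ω, F.W ω)) (by
      intro ω ω' _ _ h
      rw [← hz]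
      exact (Prod.ext_iff.1 h).1)
    have c8 : (a - 1) * CH F.p (F.X J) (fun ω => (z ω, F.W ω)) ≤ ε / 2 * J := by
      have h7 : a - 1 ≤ ε / (2 * (5 * L + 1)) := by linarith
      have h8 : 0 ≤ CH F.p (F.X J) (fun ω => (z ω, F.W ω)) := CH_nonneg hp _ _
      have h9 : CH F.p (F.X J) (fun ω => (z ω, F.W ω)) ≤ (5 * L + 1) * J := by
        have : (m : ℝ) * (((J : ℝ) + 4) * Real.log 2) = L * (J + 4) := by rw [hL]; ring
        rw [this] at c7
        nlinarith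
      calc (a - 1) * CH F.p (F.X J) (fun ω => (z ω, F.W ω)) ≤
            ε / (2 * (5 * L + 1)) * ((5 * L + 1) * J) := mul_le_mul h7 h9 h8 (by positivity)
        _ = ε / 2 * J := by field_simp
    unfold Fam.Tm at hT2
    nlinarith
  obtain ⟨R, hR, hUR, hRs⟩ := exi_inf hup hcl ⟨_, hone⟩ hzero
  refine ⟨R, hR, ?_, hUR, ?_⟩
  · by_contra hc
    exact hRs _ (not_le.mp hc) hone
  · intro η hη θ hθ J₀
    have hn := hRs (R - η) (by linarith)
    unfold UBl at hn
    push Not at hn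
    obtain ⟨η', hη', hn⟩ := hn
    obtain ⟨J, hJ, F, hF, h1⟩ := hn θ hθ J₀
    refine ⟨J, hJ, F, hF, (Gge.of_not h1).mono ?_⟩
    have : (0 : ℝ) ≤ J := Nat.cast_nonneg J
    nlinarith

end Pool.LK
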